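import Mathlib

set_option autoImplicit false
set_option maxHeartbeats 400000

open Finset Nat

namespace Pool.Agent.Results.MP_6eafb7_an.Positive

/-- the generating series `(t/(e^t-1))^a e^(x t)` -/
noncomputable def gen (a : ℕ) (x : ℝ) : PowerSeries ℝ :=
  bernoulliPowerSeries ℝ ^ a * PowerSeries.rescale x (PowerSeries.exp ℝ)

/-- generalized Bernoulli polynomial of degree `m` and order `a` at `x` -/
noncomputable def B (a m : ℕ) (x : ℝ) : ℝ := m ! * PowerSeries.coeff m (gen a x)

/-- the first convolution sum -/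
noncomputable def α (n k : ℕ) (x : ℝ) : ℝ := (-1) ^ k * ∑ j ∈ range (2 * k + 1),
  (-1) ^ j * (n.choose j) * (n.choose (2 * k - j)) * B n (n - j) x * B n (n - 2 * k + j) x

/-- the second convolution sum -/
noncomputable def β (n k : ℕ) (x : ℝ) : ℝ := (-1) ^ k * ∑ j ∈ range (2 * k + 1),
  (-1) ^ j * (n.choose j) * (n.choose (2 * k - j)) * B n j x * B n (2 * k - j) x

noncomputable def c (a m : ℕ) (x : ℝ) : ℝ := PowerSeries.coeff m (gen a x)

section
open PowerSeries

theorem cadd (a m : ℕ) (x y : ℝ) :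
    c a m (x + y) = ∑ r ∈ range (m + 1), c a (m - r) x / r ! * y ^ r := by
  rw [c, gen, ← exp_mul_exp_eq_exp_add, ← mul_assoc, ← gen, mul_comm, coeff_mul,
    Nat.sum_antidiagonal_eq_sum_range_succ_mk]
  refine sum_congr rfl fun r _ => ?_
  simp [c, coeff_rescale]; ring

theorem cdiff (a m : ℕ) (x : ℝ) : c (a + 1) (m + 1) (x + 1) - c (a + 1) (m + 1) x = c a m x := by
  have : gen (a + 1) (x + 1) - gen (a + 1) x = gen a x * X := by
    rw [gen, gen, gen, ← exp_mul_exp_eq_exp_add, rescale_one, RingHom.id_apply,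
      ← bernoulliPowerSeries_mul_exp_sub_one ℝ]; ring
  rw [c, c, ← map_sub, this, coeff_succ_mul_X, c]

theorem c0 (a : ℕ) (x : ℝ) : c a 0 x = 1 := by
  have : constantCoeff (bernoulliPowerSeries ℝ) = 1 := by
    rw [← coeff_zero_eq_constantCoeff_apply]; simp [bernoulliPowerSeries]
  rw [c, gen, coeff_zero_eq_constantCoeff_apply, map_mul, map_pow, this,
    ← coeff_zero_eq_constantCoeff_apply]; simp

theorem crec (n : ℕ) (x : ℝ) :
    (n + 1) * c (n + 2) (n + 1) x = (x - (n + 1)) * c (n + 1) n x := by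
  have h := bernoulliPowerSeries_mul_exp_sub_one ℝ
  have dE : d⁄dX ℝ (rescale x (exp ℝ)) = C x * rescale x (exp ℝ) := by
    ext m; simp [coeff_derivative, coeff_rescale, factorial_succ]; field_simp; ring
  have d := congrArg (d⁄dX ℝ) h
  rw [Derivation.leibniz, map_sub, derivative_exp, derivative_X, derivative_one] at d
  have : d⁄dX ℝ (gen (n + 1) x) * X = C ((n : ℝ) + 1) * gen (n + 1) x -
      C ((n : ℝ) + 1) * gen (n + 2) x + C (x - (n + 1)) * (gen (n + 1) x * X) := by
    simp only [gen]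
    rw [Derivation.leibniz, dE, derivative_pow]
    simp only [smul_eq_mul, map_add, map_sub, map_natCast, map_one, add_tsub_cancel_right] at *
    push_cast
    generalize bernoulliPowerSeries ℝ = f at *
    generalize rescale x (exp ℝ) = E at *
    linear_combination (E * (n + 1) * f ^ (n + 1)) * d -
      (E * (n + 1) * f ^ n * (d⁄dX ℝ f + f)) * h
  have := congrArg (coeff (n + 1)) this
  rw [map_add, map_sub, coeff_C_mul, coeff_C_mul, coeff_C_mul, coeff_succ_mul_X, coeff_succ_mul_X,
    coeff_derivative] at this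
  simp only [c]; linarith
end

theorem cq (n : ℕ) (x : ℝ) : n ! * c (n + 1) n x = ∏ j ∈ range n, (x - (j + 1)) := by
  induction n with
  | zero => simp [c0]
  | succ n ih => rw [prod_range_succ, ← ih, factorial_succ]; push_cast; linear_combination n ! * crec n x

open Polynomial

noncomputable def T (a m : ℕ) (x : ℝ) : ℝ[X] := ∑ r ∈ range (m + 1), C (c a (m - r) x / r !) * X ^ r

theorem Tc (a m r : ℕ) (x : ℝ) : (T a m x).coeff r = if r ≤ m then c a (m - r) x / r ! else 0 := by
  simp [T]

theorem Te (a m : ℕ) (x y : ℝ) : (T a m x).eval y = c a m (x + y) := by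
  simp [T, eval_finsetSum, cadd]

theorem cder (a m : ℕ) (y : ℝ) : HasDerivAt (c a (m + 1)) (c a m y) y := by
  have : derivative (T a (m + 1) 0) = T a m 0 := by
    ext r; rw [coeff_derivative, Tc, Tc]
    simp only [add_le_add_iff_right, Nat.add_sub_add_right]
    split_ifs
    · rw [factorial_succ]; push_cast; field_simp
    · simp
  simpa [this, Te] using (T a (m + 1) 0).hasDerivAt y

theorem mid (n k : ℕ) : ∃ ξ ∈ Set.Ioo (k : ℝ) (k + 1), n ! * c n n k = ∏ j ∈ range n, (ξ - (j + 1)) := by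
  obtain ⟨ξ, h, e⟩ := exists_hasDerivAt_eq_slope (c (n + 1) (n + 1)) (c (n + 1) n)
    (lt_add_one (k : ℝ)) (fun y _ => (cder _ _ y).continuousAt.continuousWithinAt)
    fun y _ => cder _ _ y
  exact ⟨ξ, h, by rw [← cq, e, cdiff]; simp⟩

theorem root (n k : ℕ) (hk : k < n) : ∃ ρ ∈ Set.Ioo (k : ℝ) (k + 1), c n n ρ = 0 := by
  obtain ⟨a, ⟨a1, a2⟩, ea⟩ := mid n k
  obtain ⟨b, ⟨b1, b2⟩, eb⟩ := mid n (k + 1)
  push_cast at b1 b2 eb
  have : (n ! * c n n k) * (n ! * c n n (k + 1)) < 0 := by
    rw [ea, eb, ← prod_mul_distrib, ← mul_prod_erase _ _ (mem_range.2 hk)]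
    refine mul_neg_of_neg_of_pos (mul_neg_of_neg_of_pos (by linarith) (by linarith))
      (prod_pos fun j hj => ?_)
    rcases lt_or_gt_of_ne (mem_erase.1 hj).1 with h | h
    · have : (j : ℝ) + 1 ≤ k := by exact_mod_cast h
      exact mul_pos (by linarith) (by linarith)
    · have : (k : ℝ) + 1 ≤ j := by exact_mod_cast h
      exact mul_pos_of_neg_of_neg (by linarith) (by linarith)
  have f : (0 : ℝ) < n ! := by positivity
  have h : c n n k * c n n (k + 1) < 0 := by
    by_contra h; nlinarith [mul_nonneg (mul_pos f f).le (not_lt.1 h)]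
  have ct : ContinuousOn (c n n) (Set.Icc (k : ℝ) (k + 1)) := by
    have : c n n = fun y => (T n n 0).eval y := by funext y; simp [Te]
    rw [this]; exact (T n n 0).continuous.continuousOn
  rcases mul_neg_iff.1 h with h | h
  · exact intermediate_value_Ioo' (by linarith) ct ⟨h.2, h.1⟩
  · exact intermediate_value_Ioo (by linarith) ct h

theorem fac (n : ℕ) (x : ℝ) : ∃ s : ℕ → ℝ, C (n ! : ℝ) * T n n x = ∏ k ∈ range n, (X - C (s k)) := by
  have : ∀ k : ℕ, ∃ ρ : ℝ, ρ ∈ Set.Ioo (k : ℝ) (k + 1) ∧ (k < n → c n n ρ = 0) := fun k => by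
    by_cases h : k < n
    · obtain ⟨ρ, a, b⟩ := root n k h; exact ⟨ρ, a, fun _ => b⟩
    · exact ⟨k + 1 / 2, ⟨by linarith, by linarith⟩, fun h' => (h h').elim⟩
  choose ρ h1 h2 using this
  have inj : Function.Injective fun k => ρ k - x := (strictMono_nat_of_lt_succ fun k => by
    have := (h1 k).2; have := (h1 (k + 1)).1; push_cast at this; linarith).injective
  have dg : (C (n ! : ℝ) * T n n x).natDegree ≤ n := natDegree_le_iff_coeff_eq_zero.2 fun r hr => by
    simp [Tc, hr.not_ge]
  have mo : (C (n ! : ℝ) * T n n x).Monic := monic_of_natDegree_le_of_coeff_eq_one n dg (by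
    have : (n ! : ℝ) ≠ 0 := by positivity
    rw [coeff_C_mul, Tc]; simp [c0, this])
  refine ⟨fun k => ρ k - x, eq_of_monic_of_dvd_of_natDegree_le
    (monic_prod_of_monic _ _ fun _ _ => monic_X_sub_C _) mo
    (prod_dvd_of_coprime (fun _ _ _ _ h => pairwise_coprime_X_sub_C inj h) fun k hk => ?_) ?_⟩
  · rw [dvd_iff_isRoot]; simp [Te, h2 k (mem_range.1 hk)]
  · rwa [natDegree_prod_of_monic _ _ fun _ _ => monic_X_sub_C _, sum_congr rfl fun _ _ =>
      natDegree_X_sub_C _, sum_const, card_range, smul_eq_mul, mul_one]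

theorem pos (a b : ℕ → ℝ) (n k : ℕ) (p : ℝ[X]) (h : p = ∏ j ∈ range n, (C (a j) + C (b j) * X)) :
    0 ≤ (-1) ^ k * ∑ j ∈ range (2 * k + 1), (-1) ^ j * p.coeff j * p.coeff (2 * k - j) := by
  have e : p.comp (C (-1) * X) * p = ∏ j ∈ range n, (C (a j ^ 2) - C (b j ^ 2) * X ^ 2) := by
    rw [h, Polynomial.prod_comp, ← prod_mul_distrib]
    refine prod_congr rfl fun j _ => ?_
    simp; ring
  have : ∑ j ∈ range (2 * k + 1), (-1) ^ j * p.coeff j * p.coeff (2 * k - j) =
      (p.comp (C (-1) * X) * p).coeff (2 * k) := by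
    rw [coeff_mul, Nat.sum_antidiagonal_eq_sum_range_succ_mk]
    refine sum_congr rfl fun j _ => ?_
    rw [comp_C_mul_X_coeff]; ring
  rw [this, e]
  clear this e h
  induction n generalizing k with
  | zero => cases k <;> simp [coeff_one]
  | succ n ih =>
    rw [prod_range_succ, mul_comm (∏ _ ∈ _, _), sub_mul, mul_assoc, coeff_sub, coeff_C_mul,
      coeff_C_mul, coeff_X_pow_mul']
    have := mul_nonneg (sq_nonneg (a n)) (ih k)
    cases k with
    | zero => simpa using this
    | succ k =>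
      have := mul_nonneg (sq_nonneg (b n)) (ih k)
      rw [if_pos (by omega), show 2 * (k + 1) - 2 = 2 * k by omega]
      rw [pow_succ (-1 : ℝ) k] at *; linarith

theorem result (n : ℕ) (hn : 1 ≤ n) (x : ℝ) :
    (∀ k, 1 ≤ 2 * k → 2 * k ≤ n → 0 ≤ α n k x) ∧ ∀ k, 2 * k ≤ n - 1 → 0 ≤ β n k x := by
  obtain ⟨s, hs⟩ := fac n x
  have t : ∀ r ≤ n, (C (n ! : ℝ) * T n n x).coeff r = n.choose r * B n (n - r) x := fun r hr => by
    rw [coeff_C_mul, Tc, if_pos hr, B, ← c, ← choose_mul_factorial_mul_factorial hr]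
    push_cast; field_simp
  refine ⟨fun k _ hk => ?_, fun k hk => ?_⟩
  · refine (pos (fun j => -s j) (fun _ => 1) n k _ (hs.trans (prod_congr rfl fun j _ => by
      simp; ring))).trans_eq ?_
    rw [α]; congr 1
    refine sum_congr rfl fun j hj => ?_
    simp at hj
    rw [t _ (by omega), t _ (by omega), show n - (2 * k - j) = n - 2 * k + j by omega]; ring
  · have dg : (C (n ! : ℝ) * T n n x).natDegree = n := by
      rw [hs, natDegree_prod_of_monic _ _ fun _ _ => monic_X_sub_C _, sum_congr rfl fun _ _ =>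
        natDegree_X_sub_C _, sum_const, card_range, smul_eq_mul, mul_one]
    have rv : ∀ m, (∏ k ∈ range m, (X - C (s k))).reverse =
        ∏ j ∈ range m, (C 1 + C (-s j) * X) := fun m => by
      induction m with
      | zero => simpa using reverse_C (1 : ℝ)
      | succ m ih =>
        rw [prod_range_succ, prod_range_succ, reverse_mul_of_domain, ih, sub_eq_add_neg, ← C_neg,
          reverse_add_C]
        have : (X : ℝ[X]).reverse = C 1 := by
          rw [← reverse_C, ← reverse_X_mul (C 1), C_1, mul_one]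
        rw [this, natDegree_X, pow_one]
    have t' : ∀ r ≤ n, (C (n ! : ℝ) * T n n x).reverse.coeff r = n.choose r * B n r x := fun r hr => by
      rw [coeff_reverse, dg, revAt_le hr, t _ (by omega), choose_symm hr, Nat.sub_sub_self hr]
    refine (pos (fun _ => 1) (fun j => -s j) n k (C (n ! : ℝ) * T n n x).reverse
      (by rw [hs, rv])).trans_eq ?_
    rw [β]; congr 1
    refine sum_congr rfl fun j hj => ?_
    simp at hj
    rw [t' _ (by omega), t' _ (by omega)]; ring

end Pool.Agent.Results.MP_6eafb7_an.Positive
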